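import Pool.Agent.Q24.SG.Num5

/-!
# Betti numbers of Poincare duality groups in right-angled Coxeter groups: the contribution of the bad vertices

Let `L` be the flag complex of the finite graph `G`, a real homology manifold with the real homology of the sphere of
dimension `n - 1`. The torsion-free subgroups of finite index of the right-angled Coxeter group `W G` are Poincare
duality groups of dimension `n` (over the integers if `L` is an integral homology sphere, over the reals in general).

The results on the Singer conjecture for these groups need that the links of the vertices of `L`, with few exceptions,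
belong to a class of good complexes. Here the set `Q` of the exceptional vertices is arbitrary, and we bound the
failure: for any linear order of the vertices the `i`-th normalised Betti number, `i` above the middle, is at most
`c_i / 2^i`, where `c_i` is the number of the simplices of `L` with `i` vertices whose largest vertex is bad. A vertex
which is not in `Q` and not in an initial segment `S` is only required to have a good lower link: the full
subcomplex on its smaller neighbours is in the class `AR (2 m + 1)`. (If all vertices outside a set `Q` have links
in this class, put the vertices of `Q` first; then `c_i` is the number of simplices with `i` vertices inside `Q`.)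
By duality the same bounds hold below the middle, and the middle Betti number differs from the Euler characteristic
by at most the sum of the bounds. So for a bounded number of bad vertices the Singer conjecture holds up to a bounded
error, however large `L` is.
-/

set_option autoImplicit false

namespace Pool.Agent.Results.MP_984acc_gt.CliquesWithBadMaximum

open Pool.Agent.W907.SG Pool.Agent.TH652.Above Pool.Agent.Q24.SG Pool.Agent.Y132.SI

/-- the number of the cliques of `G` with `i` elements whose largest element is in `Q` -/
noncomputable def badCliques {V : Type} [LinearOrder V] (G : SimpleGraph V) (Q : Set V) (i : ℕ) : ℕ :=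
  {T : Finset V | G.IsClique (T : Set V) ∧ T.card = i ∧ ∃ v ∈ T, v ∈ Q ∧ ∀ u ∈ T, u ≤ v}.ncard

theorem pnum_eq {V : Type} [LinearOrder V] (G : SimpleGraph V) (Q : Set V) (i : ℕ) :
    pnum G Q Set.univ i = badCliques G Q i := by
  unfold pnum badCliques
  congr 1
  ext T
  exact ⟨fun h => ⟨h.1, h.2.2⟩, fun h => ⟨h.1, Set.subset_univ _, h.2⟩⟩

/-- Let the flag complex of `G` be a real homology manifold with the real homology of the `(n-1)`-sphere. Let `S` be
an initial segment of the ordered vertex set which spans a subcomplex in the class `AR (2 m + 2)` (for example
`S = ∅`), and let `Q` be a set of vertices such that for every vertex `v` outside `S` and `Q` the full subcomplex on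
the neighbours `u < v` of `v` is in the class `AR (2 m + 1)`. Let `c_i` be the number of the cliques with `i` elements
and largest element in `Q`. For each `ε > 0` there is a finite set `E` of nontrivial elements of `W G` such that for
every subgroup `H` of finite index of `W G` which lies in the commutator subgroup and contains no conjugate of an
element of `E`:
(1) if `i + j = n` and `i > m + 1` then the real Betti numbers of `H` satisfy
`b_j(H) = b_i(H) ≤ (c_i / 2^i + ε) [W G : H]`;
(2) if `n = 2 m + 2` then
`|b_(m+1)(H) - (-1)^(m+1) χ(W G) [W G : H]| ≤ (∑_(k ≤ m) 2 c_(m+2+k) / 2^(m+2+k) + ε) [W G : H]`,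
where `χ(W G) = ∑_T (-1/2)^|T|` over all cliques `T`. -/
theorem result : ∀ (m n : ℕ) (V : Type) [Fintype V] [LinearOrder V] (G : SimpleGraph V), HSph n G →
    ∀ S Q : Set V, (∀ a ∈ S, ∀ b, b ≤ a → b ∈ S) → AR (2 * m + 2) (G.induce S) →
    (∀ v, v ∉ S → v ∉ Q → AR (2 * m + 1) (G.induce {u | u < v ∧ G.Adj v u})) →
    ∀ ε : ℝ, 0 < ε → ∃ E : Finset (W G), (1 : W G) ∉ E ∧
      ∀ H : Subgroup (W G), H ≤ commutator (W G) → H.FiniteIndex → (∀ g ∈ E, ∀ x : W G, x * g * x⁻¹ ∉ H) →
        (∀ i j : ℕ, i + j = n → m + 1 < i →
          (Module.finrank ℝ (HInv G H i) : ℝ) ≤ ((badCliques G Q i : ℝ) / 2 ^ i + ε) * H.index ∧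
          Module.finrank ℝ (HInv G H j) = Module.finrank ℝ (HInv G H i)) ∧
        (n = 2 * m + 2 →
          |(Module.finrank ℝ (HInv G H (m + 1)) : ℝ) - (-1) ^ (m + 1) * (chiW G : ℝ) * H.index| ≤
            (∑ k ∈ Finset.range (m + 1), 2 * ((badCliques G Q (m + 2 + k) : ℝ) / 2 ^ (m + 2 + k)) + ε) *
              H.index) := by
  intro m n V _ _ G hS S Q h1 h2 h3 ε hε
  have h4 := pay_sphere hS (hyp_AR h1 h2 h3) ε hε
  simp only [pnum_eq] at h4
  exact h4

end Pool.Agent.Results.MP_984acc_gt.CliquesWithBadMaximum
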