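import Pool.Agent.Q24.SG.Bad

/-!
# The Singer conjecture for Poincare duality groups in right-angled Coxeter groups with few bad links

Let `L` be the flag complex of the finite graph `G`, a real homology manifold with the real homology of the sphere of
dimension `2 m + 1`. The torsion-free subgroups of finite index of the right-angled Coxeter group `W G` are Poincare
duality groups of dimension `n = 2 m + 2` (over the integers if `L` is an integral homology sphere, over the reals in
general).

In the starting file `ReflectionGroups` the links of the vertices of `L` outside a set `B` have to be in a class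
`AQ (2 m + 1)` of good complexes (for example barycentric subdivisions of triangulated spheres), where the set `B` of
bad vertices spans a subcomplex of dimension at most `m`. Here the links of the vertices of `B` are arbitrary as
well, but the condition is on the number of vertices: for every simplex `T ⊆ B` of dimension `m + 1` the set `B` has
fewer than `3 (m + 2) + c` elements, where `c` is the number of common neighbours of `T` in `B`. This holds for every
set `B` with at most `3 m + 5 = (3 n + 4) / 2` elements, and if `B` spans a subcomplex of dimension at most `m`.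
-/

set_option autoImplicit false

namespace Pool.Agent.Results.MP_984acc_gt.FewBadLinks

open Pool.Agent.W907.SG Pool.Agent.TH652.Above Pool.Agent.Q24.SG Pool.Agent.Y132.SI

/-- Let the flag complex of `G` be a real homology sphere of dimension `2 m + 1`, let `B` be a set of vertices such
that `|B| < 3 (m + 2) + |{common neighbours of T in B}|` for all cliques `T ⊆ B` with `m + 2` elements, and suppose
that the links of all vertices outside `B` are in the class `AR (2 m + 1)`.
(1) The reduced `ℓ²`-homology of the Davis complex of `W G` vanishes in all degrees `i ≠ m + 1`.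
(2) The number `(-1)^(m + 1) χ(W G)` is not negative, `χ(W G) = ∑_T (-1/2)^|T|` over the cliques `T`.
(3) For each `ε > 0` there is a finite set `E` of nontrivial elements of `W G` such that for every subgroup `H` of
finite index of `W G` which contains no conjugate of an element of `E`, and for all `i`, the `i`-th real Betti number
of `H` (the dimension of the space of the `H`-invariant real harmonic `i`-chains of the Davis complex) differs by at
most `ε [W G : H]` from `0`, if `i ≠ m + 1`, or from `(-1)^i χ(W G) [W G : H]`, if `i = m + 1`. -/
theorem result : ∀ (m : ℕ) (V : Type) [Fintype V] [LinearOrder V] (G : SimpleGraph V), HSph (2 * m + 2) G →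
    ∀ B : Set V,
    (∀ T : Finset V, G.IsClique (T : Set V) → (T : Set V) ⊆ B → T.card = m + 2 →
      B.ncard < 3 * (m + 2) + {u : V | u ∈ B ∧ ∀ t ∈ T, G.Adj t u}.ncard) →
    (∀ v, v ∉ B → AR (2 * m + 1) (G.induce (G.neighborSet v))) →
    (∀ i : ℕ, i ≠ m + 1 → L2Van G i) ∧ 0 ≤ (-1 : ℚ) ^ (m + 1) * chiW G ∧
    ∀ ε : ℝ, 0 < ε → ∃ E : Finset (W G), (1 : W G) ∉ E ∧
      ∀ H : Subgroup (W G), H.FiniteIndex → (∀ g ∈ E, ∀ x : W G, x * g * x⁻¹ ∉ H) → ∀ i : ℕ,
          |(Module.finrank ℝ (HInv G H i) : ℝ) -
            (if i = m + 1 then (-1) ^ i * (chiW G : ℝ) else 0) * H.index| ≤ ε * H.index := by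
  intro m V _ _ G hS B hB hl
  have hA : AR (2 * m + 2) G := AR.loc G B (AR_fewOn (m := m + 1) hB) hl
  have h1 : ∀ i : ℕ, i ≠ m + 1 → L2Van G i := fun i hi => singer_AR hS hA i (by omega)
  refine ⟨h1, chi_sign G h1, fun ε hε => ?_⟩
  obtain ⟨E, h2, h3⟩ := growth_free G (2 * m + 2) (fun i hi => h1 i (by omega)) ε hε
  refine ⟨E, h2, fun H hfin hE i => ?_⟩
  have h4 := h3 H hfin hE i
  have h5 : (2 * i = 2 * m + 2) ↔ i = m + 1 := by omega
  simp only [h5] at h4
  exact h4

end Pool.Agent.Results.MP_984acc_gt.FewBadLinks
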