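import Pool.Agent.Q262.LB.DegK

set_option autoImplicit false

/-!
# Upper semicontinuity of L²-Betti numbers under iterated degenerations, and the Singer conjecture

Let `Γ` be an arbitrary group, for instance a Poincaré duality group of dimension `d`, and let
`C` be a chain complex of finitely generated free modules over the complex group algebra, for instance a
finite free resolution, or the cellular chain complex of the universal covering of a finite complex.

A step of a degeneration is one of the following.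
* Let `φ : K → ℤ` be a homomorphism defined on a subgroup `K`, and give a weight and a shift (an element
  of `Γ`) to every basis element of `C`, so that all terms of the boundary maps lie, after the shifts, in
  `K` and do not lower the weights. The terms which keep the weights form the initial complex.
* Twisting by a character `K → ℂˣ` of a subgroup.
* Passing to a homotopy equivalent complex.
After the first step the complex consists of terms in the kernel of the first homomorphism, so that new
homomorphisms and characters become available, which need not extend to `Γ`.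

Theorem: the L²-Betti numbers do not decrease under degenerations, and the strong Morse inequalities
`b_k(C) - b_{k-1}(C) + ⋯ ± b_0(C) ≤ b_k(E) - b_{k-1}(E) + ⋯ ± b_0(E)` hold for every degeneration `E` of
`C`. So the Singer conjecture holds for a Poincaré duality group `Γ` of dimension `d` with a finite free
resolution `C` if for each `k ≠ d/2` (by duality, for each `k > d/2`) there is a degeneration `E` of `C`
with `b_k(E) = 0`, for example one without generators in degree `k`. Moreover
`b_k(C) ≤ n_k - rank A' - rank B'`, where `n_k` is the rank of `C_k` and `A'`, `B'` are obtained by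
degenerations from the boundary matrices of `C_k` and `C_{k+1}`, independently of each other.

The proof uses the theorem on initial matrices of the library (`Pool.Agent.Q91.TE.Face`), which rests
on the semicontinuity of kernel dimensions (`Pool.Agent.W649.ZL`), and the rank formula.
-/

open scoped InnerProductSpace ENNReal

universe u

namespace Pool.Agent.Results.MP_984acc_gt.InitialComplexes

open Pool.Agent.Q262.LB

/-- Rows of `n` square-summable functions on the group. -/
noncomputable abbrev Chain (G : Type u) (n : ℕ) := lp (fun _ : Fin n × G => ℂ) 2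

open Classical in
/-- The basis vector with the entry `1` at the identity element in the place `i`. -/
noncomputable def basisVector (G : Type u) [Group G] {n : ℕ} (i : Fin n) : Chain G n :=
  lp.single (E := fun _ : Fin n × G => ℂ) 2 (i, (1 : G)) (1 : ℂ)

/-- The row `x A` (convolution): `act` is defined for all functions. -/
def times {G : Type u} [Group G] {n m : ℕ} (x : Chain G n) (A : Fin n → Fin m → (G →₀ ℂ)) :
    Fin m × G → ℂ := act A fun y => x y

/-- The kernel of the matrix `A`. -/
def kernel {G : Type u} [Group G] {n m : ℕ} (A : Fin n → Fin m → (G →₀ ℂ)) : Set (Chain G n) :=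
  {x | times x A = 0}

/-- The von Neumann rank of the matrix `A`: the sum of the squared distances of the basis vectors
from the kernel, that is, `n` minus the von Neumann dimension of the kernel. -/
noncomputable def rank {G : Type u} [Group G] {n m : ℕ} (A : Fin n → Fin m → (G →₀ ℂ)) : ℝ :=
  ∑ i, Metric.infDist (basisVector G i) (kernel A) ^ 2

/-- The harmonic chains of `C_{k+1} → C_k → C_{k-1}`, the two maps being given by the matrices `B` and
`A`: the cycles orthogonal to all boundaries. -/
def harmonic {G : Type u} [Group G] {p n m : ℕ} (B : Fin p → Fin n → (G →₀ ℂ))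
    (A : Fin n → Fin m → (G →₀ ℂ)) : Set (Chain G n) :=
  {x | x ∈ kernel A ∧ ∀ z : Chain G p, ∑' y, x y * (starRingEnd ℂ) (times z B y) = 0}

/-- The `L²`-Betti number of `C_{k+1} → C_k → C_{k-1}`: the von Neumann dimension of the space of the
harmonic chains. -/
noncomputable def betti {G : Type u} [Group G] {p n m : ℕ} (B : Fin p → Fin n → (G →₀ ℂ))
    (A : Fin n → Fin m → (G →₀ ℂ)) : ℝ :=
  ∑ i, (1 - Metric.infDist (basisVector G i) (harmonic B A) ^ 2)

/-- A chain complex of finitely generated free modules over the group algebra: `rk k` is the rank of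
`C_k`, and `D k` is the matrix of `C_{k+1} → C_k` (row vectors, matrices act from the right). -/
structure Cpx (G : Type u) [Group G] where
  rk : ℕ → ℕ
  D : ∀ k, Fin (rk (k + 1)) → Fin (rk k) → (G →₀ ℂ)
  zero : ∀ k, mulM (D (k + 1)) (D k) = 0

namespace Cpx

/-- The `L²`-Betti numbers of a complex. -/
noncomputable def b {G : Type u} [Group G] (C : Cpx G) : ℕ → ℝ
  | 0 => betti (C.D 0) (fun (_ : Fin (C.rk 0)) (_ : Fin 0) => (0 : G →₀ ℂ))
  | k + 1 => betti (C.D (k + 1)) (C.D k)

/-- The alternating sums `b_k - b_{k-1} + ⋯ ± b_0`. -/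
noncomputable def morse {G : Type u} [Group G] (C : Cpx G) : ℕ → ℝ
  | 0 => C.b 0
  | k + 1 => C.b (k + 1) - C.morse k

/-- The basis elements have weights `w` and shifts `x`; all terms of the boundary maps lie, after the
shifts, in `K`, and they do not lower the weights (`AdaptedK`). -/
def Weighted {G : Type u} [Group G] (C : Cpx G) (K : Subgroup G)
    (φ : K →* Multiplicative ℤ) (x : ∀ k, Fin (C.rk k) → G) (w : ∀ k, Fin (C.rk k) → ℤ) : Prop :=
  ∀ k, AdaptedK K φ (x (k + 1)) (x k) (w (k + 1)) (w k) (C.D k)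

/-- The initial complex: the terms of the boundary maps which keep the weights. -/
noncomputable def initial {G : Type u} [Group G] (C : Cpx G) (K : Subgroup G)
    (φ : K →* Multiplicative ℤ) (x : ∀ k, Fin (C.rk k) → G) (w : ∀ k, Fin (C.rk k) → ℤ)
    (h : C.Weighted K φ x w) : Cpx G where
  rk := C.rk
  D k := initialK K φ (x (k + 1)) (x k) (w (k + 1)) (w k) (C.D k)
  zero k := mulM_initialK K φ (x (k + 2)) (x (k + 1)) (x k) (w (k + 2)) (w (k + 1)) (w k)
    (C.D (k + 1)) (C.D k) (h (k + 1)) (h k) (C.zero k)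

/-- The complex twisted by a character of the subgroup `K`, in which all terms of the boundary maps
lie after the shifts. -/
noncomputable def twist {G : Type u} [Group G] (C : Cpx G) (K : Subgroup G)
    (χ : K →* ℂˣ) (x : ∀ k, Fin (C.rk k) → G)
    (h : ∀ k, InK K (x (k + 1)) (x k) (C.D k)) : Cpx G where
  rk := C.rk
  D k := twistK K χ (x (k + 1)) (x k) (C.D k)
  zero k := mulM_twistK K χ (x (k + 2)) (x (k + 1)) (x k) (C.D (k + 1)) (C.D k) (h (k + 1)) (h k)
    (C.zero k)

/-- `C` is a homotopy retract of `E`: there are chain maps `f : C → E` and `g : E → C` such that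
`g ∘ f` is homotopic to the identity. -/
def Retract {G : Type u} [Group G] (C E : Cpx G) : Prop :=
  ∃ (f : ∀ k, Fin (C.rk k) → Fin (E.rk k) → (G →₀ ℂ))
    (g : ∀ k, Fin (E.rk k) → Fin (C.rk k) → (G →₀ ℂ))
    (S : ∀ k, Fin (C.rk k) → Fin (C.rk (k + 1)) → (G →₀ ℂ)),
    (∀ k, mulM (C.D k) (f k) = mulM (f (k + 1)) (E.D k)) ∧
    (∀ k, mulM (E.D k) (g k) = mulM (g (k + 1)) (C.D k)) ∧
    idM G (C.rk 0) = mulM (f 0) (g 0) + mulM (S 0) (C.D 0) ∧
    ∀ k, idM G (C.rk (k + 1)) = mulM (f (k + 1)) (g (k + 1)) +
      (mulM (C.D k) (S k) + mulM (S (k + 1)) (C.D (k + 1)))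

/-- `E` is obtained from `C` by finitely many steps: passing to an initial complex, twisting by a
character of a subgroup, passing to a homotopy equivalent complex (here it suffices that each of the
two complexes is a homotopy retract of the other). -/
inductive Degen {G : Type u} [Group G] (C : Cpx G) : Cpx G → Prop
  | refl : Degen C C
  | initial {E : Cpx G} (K : Subgroup G) (φ : K →* Multiplicative ℤ)
      (x : ∀ k, Fin (E.rk k) → G) (w : ∀ k, Fin (E.rk k) → ℤ) (h : E.Weighted K φ x w) :
      Degen C E → Degen C (E.initial K φ x w h)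
  | twist {E : Cpx G} (K : Subgroup G) (χ : K →* ℂˣ) (x : ∀ k, Fin (E.rk k) → G)
      (h : ∀ k, InK K (x (k + 1)) (x k) (E.D k)) : Degen C E → Degen C (E.twist K χ x h)
  | homotopy {E E' : Cpx G} : E.Retract E' → E'.Retract E → Degen C E → Degen C E'

end Cpx

section
variable {G : Type u} [Group G] {p n m : ℕ}

theorem kernel_eq (A : Fin n → Fin m → (G →₀ ℂ)) : kernel A = Pool.Agent.W649.ZL.kernM A := by
  ext x
  constructor
  · intro h j g
    exact congrFun (show act A (fun y => x y) = 0 from h) (j, g)
  · intro h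
    funext ⟨j, g⟩
    exact h j g

theorem rank_eq (A : Fin n → Fin m → (G →₀ ℂ)) :
    rank A = n - Pool.Agent.W649.ZL.kerDimM A := by
  unfold rank Pool.Agent.W649.ZL.kerDimM basisVector
  rw [kernel_eq, Finset.sum_sub_distrib, Finset.sum_const, Finset.card_univ, Fintype.card_fin,
    nsmul_eq_mul, mul_one, sub_sub_cancel]

theorem harmonic_iff (B : Fin p → Fin n → (G →₀ ℂ)) (A : Fin n → Fin m → (G →₀ ℂ))
    (x : Chain G n) : x ∈ harmonic B A ↔ Pool.Agent.W649.ZL.flp x ∈ harm B A := by
  have hin : ∀ z : Chain G p, ⟪T B (Pool.Agent.W649.ZL.flp z), Pool.Agent.W649.ZL.flp x⟫_ℂ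
      = ∑' y, x y * (starRingEnd ℂ) (times z B y) := by
    intro z
    rw [lp.inner_eq_tsum]
    rw [← (Pool.Agent.W649.ZL.flE G (Fin n)).tsum_eq
      (fun y => x y * (starRingEnd ℂ) (times z B y))]
    refine tsum_congr ?_
    rintro ⟨g, k⟩
    have h1 := T_flp B z g⁻¹ k
    rw [inv_inv] at h1
    rw [h1]
    rfl
  constructor
  · rintro ⟨h1, h2⟩
    refine ⟨?_, ?_⟩
    · rw [kernel_eq] at h1
      exact (mem_kernM A x).1 h1
    · rw [SetLike.mem_coe, Submodule.mem_orthogonal]
      rintro _ ⟨F, rfl⟩
      obtain ⟨z, rfl⟩ := Pool.Agent.W649.ZL.flp_surj F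
      exact (hin z).trans (h2 z)
  · rintro ⟨h1, h2⟩
    refine ⟨?_, fun z => ?_⟩
    · rw [kernel_eq]
      exact (mem_kernM A x).2 h1
    · rw [SetLike.mem_coe, Submodule.mem_orthogonal] at h2
      rw [← hin z]
      exact h2 _ ⟨_, rfl⟩

theorem betti_vd (B : Fin p → Fin n → (G →₀ ℂ)) (A : Fin n → Fin m → (G →₀ ℂ)) :
    betti B A = Pool.Agent.W649.ZL.vd (harm B A) :=
  vd_image (harmonic B A) (harm B A) (harm_closed B A) (harmonic_iff B A)

theorem betti_eq (B : Fin p → Fin n → (G →₀ ℂ)) (A : Fin n → Fin m → (G →₀ ℂ))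
    (h : mulM B A = 0) : betti B A = n - rank A - rank B := by
  rw [betti_vd, vd_harm' B A h, rank_eq, rank_eq]
  ring

theorem betti_nonneg (B : Fin p → Fin n → (G →₀ ℂ)) (A : Fin n → Fin m → (G →₀ ℂ)) :
    0 ≤ betti B A := by
  rw [betti_vd]
  exact Pool.Agent.W649.ZL.vd_nonneg _

theorem rank_nonneg (A : Fin n → Fin m → (G →₀ ℂ)) : 0 ≤ rank A :=
  Finset.sum_nonneg fun _ _ => sq_nonneg _

theorem mulM_zero_right (B : Fin p → Fin n → (G →₀ ℂ)) :
    mulM B (fun (_ : Fin n) (_ : Fin 0) => (0 : G →₀ ℂ)) = 0 := by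
  funext l j
  exact j.elim0

theorem rank_zero : rank (fun (_ : Fin n) (_ : Fin 0) => (0 : G →₀ ℂ)) = 0 := by
  unfold rank
  refine Finset.sum_eq_zero fun i _ => ?_
  rw [Metric.infDist_zero_of_mem]
  · norm_num
  · change times _ _ = 0
    funext ⟨j, _⟩
    exact j.elim0

theorem T_add (X Y : Fin n → Fin m → (G →₀ ℂ)) (F : Pool.Agent.W649.ZL.EE G (Fin n)) :
    T (X + Y) F = T X F + T Y F := by
  ext ⟨u, j⟩
  change _ = T X F (u, j) + T Y F (u, j)
  rw [T_apply, T_apply, T_apply, ← Finset.sum_add_distrib]
  refine Finset.sum_congr rfl fun i _ => ?_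
  exact Finsupp.sum_add_index' (f := X i j) (g := Y i j)
    (h := fun (t : G) (a : ℂ) => a * F (t * u, i)) (fun t => by rw [zero_mul])
    (fun t a b => by rw [add_mul])

end

namespace Cpx

variable {G : Type u} [Group G]

theorem b_zero_eq (C : Cpx G) : C.b 0 = C.rk 0 - rank (C.D 0) := by
  change betti (C.D 0) (fun (_ : Fin (C.rk 0)) (_ : Fin 0) => (0 : G →₀ ℂ)) = _
  rw [betti_eq _ _ (mulM_zero_right _), rank_zero, sub_zero]

theorem b_succ_eq (C : Cpx G) (k : ℕ) :
    C.b (k + 1) = C.rk (k + 1) - rank (C.D k) - rank (C.D (k + 1)) :=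
  betti_eq _ _ (C.zero k)

theorem b_nonneg (C : Cpx G) (k : ℕ) : 0 ≤ C.b k := by
  cases k with
  | zero => exact betti_nonneg _ _
  | succ k => exact betti_nonneg _ _

theorem b_le (C : Cpx G) (k : ℕ) : C.b k ≤ C.rk k := by
  cases k with
  | zero =>
    rw [b_zero_eq]
    have := rank_nonneg (C.D 0)
    linarith
  | succ k =>
    rw [b_succ_eq]
    have h1 := rank_nonneg (C.D k)
    have h2 := rank_nonneg (C.D (k + 1))
    linarith

/-- alternating sums of ranks -/
noncomputable def alt (r : ℕ → ℕ) : ℕ → ℝ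
  | 0 => r 0
  | k + 1 => r (k + 1) - alt r k

theorem morse_eq (C : Cpx G) (k : ℕ) : C.morse k = alt C.rk k - rank (C.D k) := by
  induction k with
  | zero => exact C.b_zero_eq
  | succ k ih =>
    change C.b (k + 1) - C.morse k = (C.rk (k + 1) - alt C.rk k) - rank (C.D (k + 1))
    rw [ih, b_succ_eq]
    ring

theorem b_of_morse {C E : Cpx G} (h : ∀ k, C.morse k ≤ E.morse k) (k : ℕ) :
    C.b k ≤ E.b k := by
  cases k with
  | zero => exact h 0
  | succ k =>
    have h1 : C.morse (k + 1) = C.b (k + 1) - C.morse k := rfl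
    have h2 : E.morse (k + 1) = E.b (k + 1) - E.morse k := rfl
    have h3 := h (k + 1)
    have h4 := h k
    linarith

theorem morse_initial (C : Cpx G) (K : Subgroup G) (φ : K →* Multiplicative ℤ)
    (x : ∀ k, Fin (C.rk k) → G) (w : ∀ k, Fin (C.rk k) → ℤ) (h : C.Weighted K φ x w) (k : ℕ) :
    C.morse k ≤ (C.initial K φ x w h).morse k := by
  rw [morse_eq, morse_eq]
  have h1 := kerDimM_initialK K φ (x (k + 1)) (x k) (w (k + 1)) (w k) (C.D k) (h k)
  have h2 := rank_eq (C.D k)
  have h3 := rank_eq (initialK K φ (x (k + 1)) (x k) (w (k + 1)) (w k) (C.D k))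
  change alt C.rk k - rank (C.D k) ≤
    alt C.rk k - rank (initialK K φ (x (k + 1)) (x k) (w (k + 1)) (w k) (C.D k))
  linarith

theorem morse_twist (C : Cpx G) (K : Subgroup G) (χ : K →* ℂˣ)
    (x : ∀ k, Fin (C.rk k) → G) (h : ∀ k, InK K (x (k + 1)) (x k) (C.D k)) (k : ℕ) :
    C.morse k = (C.twist K χ x h).morse k := by
  rw [morse_eq, morse_eq]
  have h1 := kerDimM_twistK K χ (x (k + 1)) (x k) (C.D k) (h k)
  have h2 := rank_eq (C.D k)
  have h3 := rank_eq (twistK K χ (x (k + 1)) (x k) (C.D k))
  change alt C.rk k - rank (C.D k) = alt C.rk k - rank (twistK K χ (x (k + 1)) (x k) (C.D k))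
  linarith

theorem b_retract {C E : Cpx G} (h : C.Retract E) (k : ℕ) : C.b k ≤ E.b k := by
  obtain ⟨f, g, S, hf, hg, h0, hk⟩ := h
  cases k with
  | zero =>
    change betti (C.D 0) (fun (_ : Fin (C.rk 0)) (_ : Fin 0) => (0 : G →₀ ℂ)) ≤
      betti (E.D 0) (fun (_ : Fin (E.rk 0)) (_ : Fin 0) => (0 : G →₀ ℂ))
    rw [betti_vd, betti_vd]
    refine harm_retract _ _ _ _ (f 0) (g 0) (g 1) (S 0) (fun F _ => T_zero _) (fun z => ?_)
      (fun z => T_zero _) (fun F _ => ?_)
    · rw [← T_mulM, ← T_mulM, hg 0]
    · calc F = T (idM G (C.rk 0)) F := (T_idM F).symm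
        _ = _ := by rw [h0, T_add, T_mulM, T_mulM]
  | succ k =>
    change betti (C.D (k + 1)) (C.D k) ≤ betti (E.D (k + 1)) (E.D k)
    rw [betti_vd, betti_vd]
    refine harm_retract _ _ _ _ (f (k + 1)) (g (k + 1)) (g (k + 2)) (S (k + 1)) (fun F hF => ?_)
      (fun z => ?_) (fun z => ?_) (fun F hF => ?_)
    · rw [← T_mulM, ← hf k, T_mulM, hF, map_zero]
    · rw [← T_mulM, ← T_mulM, hg (k + 1)]
    · rw [← T_mulM, E.zero k]
      exact T_zero _
    · calc F = T (idM G (C.rk (k + 1))) F := (T_idM F).symm
        _ = _ := by rw [hk k, T_add, T_add, T_mulM, T_mulM, T_mulM, hF, map_zero, zero_add]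

theorem morse_retract {C E : Cpx G} (h : C.Retract E) (h' : E.Retract C) (k : ℕ) :
    C.morse k = E.morse k := by
  have hb : ∀ k, C.b k = E.b k := fun k => le_antisymm (b_retract h k) (b_retract h' k)
  induction k with
  | zero => exact hb 0
  | succ k ih =>
    change C.b (k + 1) - C.morse k = E.b (k + 1) - E.morse k
    rw [hb, ih]

theorem Degen.morse_le {C E : Cpx G} (h : C.Degen E) : ∀ k, C.morse k ≤ E.morse k := by
  induction h with
  | refl => exact fun _ => le_rfl
  | initial K φ x w h _ ih => exact fun k => (ih k).trans (morse_initial _ K φ x w h k)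
  | twist K χ x h _ ih => exact fun k => (ih k).trans (morse_twist _ K χ x h k).le
  | homotopy h1 h2 _ ih => exact fun k => (ih k).trans (morse_retract h1 h2 k).le

end Cpx

/-- **Semicontinuity of L²-Betti numbers under iterated degenerations.** Let `G` be any group.
(1) If the complex `E` is a degeneration of the complex `C`, then `b_k(C) ≤ b_k(E)` for all `k`, and the
strong Morse inequalities hold; so `b_k(C) = 0` if `b_k(E) = 0`, in particular if `E_k = 0`.
(2) `b_k(C) ≤ b_k(E)` for all `k` if `C` is a homotopy retract of `E`.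
(3) `b = n - rank A - rank B ≥ 0` for every piece `C_{k+1} → C_k → C_{k-1}` of a complex (`B A = 0`), and
`b ≤ n - rank A' - rank B'` for all matrices `A'`, `B'` obtained from `A` and `B` by sequences of
degenerations which are independent of each other; so `b = 0` if `rank A' + rank B' ≥ n`. -/
theorem result (G : Type u) [Group G] :
    (∀ C E : Cpx G, C.Degen E → ∀ k, 0 ≤ C.b k ∧ C.b k ≤ E.b k ∧ E.b k ≤ E.rk k ∧
      C.morse k ≤ E.morse k) ∧
    (∀ C E : Cpx G, C.Retract E → ∀ k, C.b k ≤ E.b k) ∧
    (∀ (p n m : ℕ) (B : Fin p → Fin n → (G →₀ ℂ)) (A : Fin n → Fin m → (G →₀ ℂ)),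
      mulM B A = 0 → betti B A = n - rank A - rank B ∧ 0 ≤ betti B A ∧
        ∀ (A' : Fin n → Fin m → (G →₀ ℂ)) (B' : Fin p → Fin n → (G →₀ ℂ)),
          DegenK A A' → DegenK B B' → betti B A ≤ n - rank A' - rank B' ∧
            (n ≤ rank A' + rank B' → betti B A = 0)) := by
  refine ⟨fun C E h k => ⟨C.b_nonneg k, Cpx.b_of_morse h.morse_le k, E.b_le k, h.morse_le k⟩,
    fun C E h k => Cpx.b_retract h k, ?_⟩
  intro p n m B A h
  refine ⟨betti_eq B A h, betti_nonneg B A, fun A' B' hA hB => ?_⟩
  have h1 := hA.le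
  have h2 := hB.le
  have h3 := betti_eq B A h
  have h4 := betti_nonneg B A
  have h5 := rank_eq A
  have h6 := rank_eq A'
  have h7 := rank_eq B
  have h8 := rank_eq B'
  exact ⟨by linarith, fun h9 => by linarith⟩

end Pool.Agent.Results.MP_984acc_gt.InitialComplexes
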