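import Pool.Agent.Q103.SG.Main
import Pool.Agent.Q103.SG.Cat

/-!
# The Singer conjecture for Poincaré duality groups acting on CAT(0) spaces without rank one isometries

Let `G` be an `n`-dimensional Poincaré duality group, `n ≥ 2`, acting geometrically on a proper
geodesically complete CAT(0) space `X` (of any dimension).  Theorem: if `G` contains no rank one
isometry of `X`, then the reduced `ℓ²`-cohomology of `G` vanishes in the degrees `0`, `1`, `n - 1`
and in all degrees `≥ n`.  So for `n ≤ 4` the Singer conjecture holds for these groups: all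
`ℓ²`-Betti numbers `b_i` with `i ≠ n / 2` vanish.  In other words, a counterexample of dimension
three or four to the Singer conjecture which acts geometrically on a geodesically complete CAT(0)
space must contain a rank one isometry.

Idea of the proof.  (1) Without rank one isometries every nonconstant harmonic function on a Cayley
graph of `G` has energy at least `κ log R` on balls (starting library `Y34.EL`).  (2) Let `b` be a
cocycle of `G` with values in `ℓ²(G)`.  Its component orthogonal to the coboundaries on a finite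
generating set is the gradient of a harmonic function of finite energy, so it vanishes; hence `b` is
a limit of coboundaries.  (3) For a resolution by finitely generated projective modules, given by
idempotent matrices, every `ℓ²`-cocycle of degree one can be computed from a cocycle of `G` by means of
elements `v_g` with `d v_g = (g - 1) u₀`; so it is a limit of coboundaries.  (4) By Poincaré duality
the dual complex is a resolution of the twisted module `ℤ`.  An `ℓ²`-cocycle `z` of degree `n - 1` (or
`n`) which is orthogonal to the coboundaries gives a cocycle of degree one (zero) of the dual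
resolution; it is a limit of coboundaries by (3), hence orthogonal to `z`, and its inner product
with `z` is `‖z‖²`.
-/

set_option autoImplicit false

namespace Pool.Agent.Results.MP_984acc_gt.RankOneOrSinger

/-- `(P, d, ε)` is a resolution of the trivial module `ℤ` by finitely generated projective
`ℤ[G]`-modules `P i`, with `P i = 0` for `i > m`. -/
structure IsFPResolution {G : Type} [Group G] (P : ℕ → Type) [∀ i, AddCommGroup (P i)]
    [∀ i, Module (MonoidAlgebra ℤ G) (P i)] (d : ∀ i, P (i + 1) →ₗ[MonoidAlgebra ℤ G] P i)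
    (ε : P 0 →+ ℤ) (m : ℕ) : Prop where
  finite : ∀ i, Module.Finite (MonoidAlgebra ℤ G) (P i)
  projective : ∀ i, Module.Projective (MonoidAlgebra ℤ G) (P i)
  bounded : ∀ i, m < i → Subsingleton (P i)
  surjective : Function.Surjective ε
  equivariant : ∀ (g : G) (x : P 0), ε (MonoidAlgebra.of ℤ G g • x) = ε x
  exact_zero : ∀ x : P 0, ε x = 0 ↔ x ∈ LinearMap.range (d 0)
  exact_succ : ∀ (i : ℕ) (x : P (i + 1)), d i x = 0 ↔ x ∈ LinearMap.range (d (i + 1))

/-- `G` is a Poincaré duality group of dimension `n`: it is of type `FP`, `H^i(G; ℤ[G]) = 0` for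
`i ≠ n`, and `H^n(G; ℤ[G])` is isomorphic to `ℤ` as an abelian group. -/
def IsPD (n : ℕ) (G : Type) [Group G] : Prop :=
  (∃ (P : ℕ → Type) (_ : ∀ i, AddCommGroup (P i)) (_ : ∀ i, Module (MonoidAlgebra ℤ G) (P i))
    (d : ∀ i, P (i + 1) →ₗ[MonoidAlgebra ℤ G] P i) (ε : P 0 →+ ℤ) (m : ℕ),
    IsFPResolution P d ε m) ∧
  (∀ i : ℕ, i ≠ n → Subsingleton (groupCohomology (Rep.leftRegular ℤ G) i)) ∧
  Nonempty (groupCohomology (Rep.leftRegular ℤ G) n ≃+ ℤ)

/-- The Hilbert space `ℓ²(G)` (with real scalars). -/
abbrev EllTwo (G : Type) : Type := lp (fun _ : G => ℝ) 2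

/-- `φ : M → ℓ²(G)` is equivariant for the left regular representation `(g f)(x) = f(g⁻¹ x)`. -/
def Equivariant {G : Type} [Group G] {M : Type} [AddCommGroup M] [Module (MonoidAlgebra ℤ G) M]
    (φ : M →+ EllTwo G) : Prop :=
  ∀ (g : G) (p : M) (x : G), φ (MonoidAlgebra.of ℤ G g • p) x = φ p (g⁻¹ * x)

/-- The reduced `ℓ²`-cohomology of the complex `P` vanishes in degree `i`: every `ℓ²`-cocycle
(an equivariant map `φ : P i → ℓ²(G)` with `φ ∘ d = 0`) is a limit of coboundaries `ψ ∘ d`
(uniformly on finite subsets; `P i` is finitely generated, so this is the closure in the Hilbert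
space of `ℓ²`-cochains); in degree zero there are no coboundaries. -/
def ReducedVanishes {G : Type} [Group G] {P : ℕ → Type} [∀ i, AddCommGroup (P i)]
    [∀ i, Module (MonoidAlgebra ℤ G) (P i)] (d : ∀ i, P (i + 1) →ₗ[MonoidAlgebra ℤ G] P i) :
    ℕ → Prop
  | 0 => ∀ φ : P 0 →+ EllTwo G, Equivariant φ → (∀ x, φ (d 0 x) = 0) → φ = 0
  | (i + 1) => ∀ φ : P (i + 1) →+ EllTwo G, Equivariant φ → (∀ x, φ (d (i + 1) x) = 0) →
      ∀ (F : Finset (P (i + 1))) (δ : ℝ), 0 < δ →
        ∃ ψ : P i →+ EllTwo G, Equivariant ψ ∧ ∀ p ∈ F, ‖φ p - ψ (d i p)‖ < δ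

/-- `b_i⁽²⁾(G) = 0` for a group `G` of type `FP`: the reduced `ℓ²`-cohomology in degree `i`, computed
with any resolution of finite length by finitely generated projective modules, vanishes (the
von Neumann dimension of a Hilbert module is zero only if the module is zero). -/
def BettiVanishes (G : Type) [Group G] (i : ℕ) : Prop :=
  ∀ (P : ℕ → Type) [∀ i, AddCommGroup (P i)] [∀ i, Module (MonoidAlgebra ℤ G) (P i)]
    (d : ∀ i, P (i + 1) →ₗ[MonoidAlgebra ℤ G] P i) (ε : P 0 →+ ℤ) (m : ℕ),
    IsFPResolution P d ε m → ReducedVanishes d i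

/-- The inequality of Bruhat and Tits: a complete metric space is CAT(0) if and only if any two
points `p`, `q` have a midpoint `m` such that
`d(x, m)² ≤ (d(x, p)² + d(x, q)²) / 2 - d(p, q)² / 4` for all `x`. -/
def BruhatTits (X : Type*) [MetricSpace X] : Prop := ∀ p q : X, ∃ m : X, ∀ x : X,
  dist x m ^ 2 ≤ (dist x p ^ 2 + dist x q ^ 2) / 2 - dist p q ^ 2 / 4

/-- Every geodesic segment extends to a geodesic line: for `p ≠ q` there is a line through `p` and
`q` (in a CAT(0) space it contains the unique geodesic segment from `p` to `q`). -/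
def GeodesicallyComplete (X : Type*) [MetricSpace X] : Prop :=
  ∀ p q : X, p ≠ q → ∃ c : ℝ → X, Isometry c ∧ c 0 = p ∧ c (dist p q) = q

/-- The line `c` bounds a flat half-plane: there is an isometric embedding `H` of the Euclidean
half-plane `ℝ × [0, ∞)` in `X` which extends `c`. -/
def BoundsHalfPlane {X : Type*} [MetricSpace X] (c : ℝ → X) : Prop :=
  ∃ H : ℝ × NNReal → X,
    (∀ p q : ℝ × NNReal, dist (H p) (H q) ^ 2 = (p.1 - q.1) ^ 2 + ((p.2 : ℝ) - q.2) ^ 2) ∧
    ∀ t : ℝ, H (t, 0) = c t

/-- `g` is a rank one isometry of `X`: it translates a geodesic line `c` by `τ > 0`, and this axis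
does not bound a flat half-plane. -/
def IsRankOne (X : Type*) [MetricSpace X] {G : Type*} [Group G] [MulAction G X] (g : G) : Prop :=
  ∃ (τ : ℝ) (c : ℝ → X), 0 < τ ∧ Isometry c ∧ (∀ t, g • c t = c (t + τ)) ∧ ¬ BoundsHalfPlane c

open Pool.Agent.Q103.SG in
theorem equivariant_iff {G : Type} [Group G] {M : Type} [AddCommGroup M]
    [Module (MonoidAlgebra ℤ G) M] (φ : M →+ EllTwo G) : Equivariant φ ↔ EqV φ := by
  constructor
  · intro h g p
    ext x
    exact h g p x
  · intro h g p x
    exact congrArg (fun f : EllTwo G => f x) (h g p)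

open Pool.Agent.Q103.SG in
theorem betti_of {G : Type} [Group G] (hA : Approx G) (q : ℕ) (hG : IsPD (q + 2) G) (i : ℕ)
    (hi : i ≤ 1 ∨ q + 2 ≤ i + 1) : BettiVanishes G i := by
  intro P _ _ d ε m hP
  have := hP.finite
  have := hP.projective
  obtain ⟨-, hcoh, htop⟩ := hG
  obtain ⟨h0, h1⟩ := vanish (P := P) (d := d) (ε := ε) hA
    ⟨hP.surjective, hP.equivariant, hP.exact_zero, hP.exact_succ⟩ m hP.bounded q hcoh htop
  cases i with
  | zero => exact fun φ hφ hd => h0 φ ((equivariant_iff φ).1 hφ) hd
  | succ i =>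
    intro φ hφ hd F δ hδ
    obtain ⟨ψ, hψ, h⟩ := h1 i (by omega) φ ((equivariant_iff φ).1 hφ) hd F δ hδ
    exact ⟨ψ, (equivariant_iff ψ).2 hψ, h⟩

/-- **The Singer conjecture or a rank one isometry.**  Let `G` be a Poincaré duality group of dimension
`n ≥ 2` which acts geometrically (by isometries, properly discontinuously, cocompactly) on a proper
geodesically complete CAT(0) space `X`.  Then `G` contains a rank one isometry of `X`, or
`b_i⁽²⁾(G) = 0` for `i = 0`, `1`, `n - 1` and all `i ≥ n`; in the latter case, if `n ≤ 4`, the Singer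
conjecture holds for `G`: `b_i⁽²⁾(G) = 0` for all `i ≠ n / 2`. -/
theorem result {n : ℕ} (hn : 2 ≤ n) {G : Type} [Group G] (hG : IsPD n G)
    {X : Type*} [MetricSpace X] [ProperSpace X] [Nonempty X] (hX : BruhatTits X)
    (hc : GeodesicallyComplete X) [MulAction G X] [IsIsometricSMul G X]
    [ProperlyDiscontinuousSMul G X]
    (hcc : ∃ K : Set X, IsCompact K ∧ ∀ x : X, ∃ g : G, g • x ∈ K) :
    (∃ g : G, IsRankOne X g) ∨
      ((∀ i, i ≤ 1 ∨ n ≤ i + 1 → BettiVanishes G i) ∧
        (n ≤ 4 → ∀ i, 2 * i ≠ n → BettiVanishes G i)) := by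
  have hgeo : Pool.Agent.Y34.HB.Geo X G := ⟨inferInstance, inferInstance, inferInstance, hcc, hX⟩
  by_cases hno : ∀ g : G, ¬ Pool.Agent.Y34.EL.RankOne X g
  · right
    obtain ⟨q, rfl⟩ := Nat.exists_eq_add_of_le' hn
    have hA : Pool.Agent.Q103.SG.Approx G := fun b hb T δ hδ =>
      Pool.Agent.Q103.SG.approx_of_geo hgeo hc hno (Classical.arbitrary X) b hb T δ hδ
    refine ⟨fun i hi => betti_of hA q hG i hi, fun h4 i hi => betti_of hA q hG i (by omega)⟩
  · left
    push Not at hno
    obtain ⟨g, τ, c, hτ, hc, he⟩ := hno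
    refine ⟨g, τ, c, hτ, hc.1, hc.2, ?_⟩
    rintro ⟨H, hH⟩
    have : H ∈ Pool.Agent.Y34.HB.HP c := hH
    rw [he] at this
    exact this

end Pool.Agent.Results.MP_984acc_gt.RankOneOrSinger
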